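import Pool.Agent.D0H69.L0.StmS
import Pool.Agent.D0H43.L3.Supp
import Pool.Agent.Y100.CT.CUB3

/-!
# Project L0, module P6: local solutions at three

`D = 1 + 3 δ`, `B = ω ^ b (1 + 3 β)`: if `b = 0` then `B ^ 2 + B D (√-3 c) ^ 3 = 1` modulo `9` for a
rational integer `c`, and if `b ≠ 0` then `B ^ 2 + B D = -1` modulo `9`.
-/

set_option autoImplicit false

namespace Pool.Agent.D0H42.L0

open Pool.Agent.Y692.QS
open Pool.Agent.Y715.T.Gi Pool.Agent.Y715.T.Nr Pool.Agent.Y715.T.Df Pool.Agent.Y715.T.Ell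
open Pool.Agent.Y715.T.Red Pool.Agent.Y715.T.Thr
open Pool.Agent.Y703.CT
open Pool.Agent.Y100.CT.CUB3 (root norm_nine)
open Pool.Agent.D0H43.L3 (yq)
open Pool.Agent.D0H69.L0
open Pool.Agent.N883.FF (nq)

namespace Cub3M

lemma three_dvd {z : Ei} (h1 : (3 : ℤ) ∣ z.re) (h2 : (3 : ℤ) ∣ z.im) : ∃ m : Ei, z = 3 * m := by
  have : ((3 : ℤ) : Ei) ∣ z := int_dvd.2 ⟨h1, h2⟩
  obtain ⟨m, hm⟩ := this
  exact ⟨m, by rw [hm]; norm_num⟩

lemma lam_w : (lam : Ei) = 1 + 2 * w := by decide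

lemma cube_sub (c : ℤ) : ∃ k : ℤ, c ^ 3 = c + 3 * k := by
  have h : ((c ^ 3 - c : ℤ) : ZMod 3) = 0 := by
    push_cast
    generalize (c : ZMod 3) = x
    revert x
    decide
  rw [ZMod.intCast_zmod_eq_zero_iff_dvd] at h
  obtain ⟨k, hk⟩ := h
  push_cast at hk
  exact ⟨k, by linear_combination hk⟩

/-- the congruence modulo nine -/
lemma main (b : ZMod 3) (β δ : Ei) (h0 : nq (1 + 3 * δ) = 0)
    (h1 : nq (1 + 3 * β) + b * yq (1 + 3 * δ) = 0) :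
    ∃ (t r z : Ei), (w ^ b.val * (1 + 3 * β)) ^ 2 * t ^ 3 +
      (w ^ b.val * (1 + 3 * β)) * (1 + 3 * δ) * r ^ 3 = 1 + 9 * z := by
  rw [Pool.Agent.D0H43.L3.Chi.nq_one] at h0 h1
  rw [Pool.Agent.D0H43.L3.Chi.yq_one] at h1
  obtain ⟨x, y⟩ := β
  obtain ⟨p, q⟩ := δ
  simp only at h0 h1
  have hw := w_sq
  have hl := lam_w
  have hk : ∀ k : ZMod 3, k = 0 ∨ k = 1 ∨ k = 2 := by decide
  have v0 : (0 : ZMod 3).val = 0 := rfl
  have v1 : (1 : ZMod 3).val = 1 := rfl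
  have v2 : (2 : ZMod 3).val = 2 := rfl
  have i0 : ((p + q : ℤ) : ZMod 3) = 0 := by push_cast at h0 ⊢; linear_combination -h0
  rw [ZMod.intCast_zmod_eq_zero_iff_dvd] at i0
  rcases hk b with rfl | rfl | rfl
  · -- b = 0
    have i1 : ((x + y : ℤ) : ZMod 3) = 0 := by push_cast at h1 ⊢; linear_combination -h1
    rw [ZMod.intCast_zmod_eq_zero_iff_dvd] at i1
    obtain ⟨k, hk'⟩ := cube_sub x
    have hc : (⟨x + 3 * k, 0⟩ : Ei) = ((x : ℤ) : Ei) ^ 3 := by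
      have e1 : ((x : ℤ) : Ei) ^ 3 = ((x ^ 3 : ℤ) : Ei) := by push_cast; ring
      rw [e1, hk']
      rfl
    have d1 : (⟨1, 2⟩ : Ei) = 1 + 2 * w := by decide
    have d2 : (⟨2, 0⟩ : Ei) = 2 := by decide
    obtain ⟨m, hm⟩ := three_dvd (z := (⟨2, 0⟩ : Ei) * (⟨x, y⟩ : Ei) +
        (⟨1, 2⟩ : Ei) * (⟨x + 3 * k, 0⟩ : Ei))
      (by simp only [mul_re, QuadraticAlgebra.re_add]; omega)
      (by simp only [mul_im, QuadraticAlgebra.im_add]; omega)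
    simp only [d1, d2, hc] at hm
    generalize ((x : ℤ) : Ei) = c at hm ⊢
    generalize (⟨x, y⟩ : Ei) = β at hm ⊢
    generalize (⟨p, q⟩ : Ei) = δ at hm ⊢
    refine ⟨1, -(lam * c), m + β ^ 2 + (1 + 2 * w) * c ^ 3 * (β + δ + 3 * β * δ), ?_⟩
    rw [v0, hl]
    linear_combination 3 * hm + (-4 * (2 * w + 1) * (1 + 3 * β) * (1 + 3 * δ) * c ^ 3) * hw
  · -- b = 1
    have i1 : ((x + y - q : ℤ) : ZMod 3) = 0 := by push_cast at h1 ⊢; linear_combination -h1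
    rw [ZMod.intCast_zmod_eq_zero_iff_dvd] at i1
    have d1 : (⟨1, 2⟩ : Ei) = 1 + 2 * w := by decide
    have d2 : (⟨0, 1⟩ : Ei) = w := by decide
    obtain ⟨m, hm⟩ := three_dvd (z := (⟨1, 2⟩ : Ei) * (⟨x, y⟩ : Ei) +
        (⟨0, 1⟩ : Ei) * (⟨p, q⟩ : Ei))
      (by simp only [mul_re, QuadraticAlgebra.re_add]; omega)
      (by simp only [mul_im, QuadraticAlgebra.im_add]; omega)
    simp only [d1, d2] at hm
    generalize (⟨x, y⟩ : Ei) = β at hm ⊢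
    generalize (⟨p, q⟩ : Ei) = δ at hm ⊢
    refine ⟨-1, -1, -m + (1 + w) * β - w ^ 2 * β ^ 2 - w * β * δ, ?_⟩
    rw [v1]
    linear_combination (-3) * hm + (-(1 + 6 * β)) * hw
  · -- b = 2
    have i1 : ((x + y + q : ℤ) : ZMod 3) = 0 := by
      have g3 : (3 : ZMod 3) = 0 := rfl
      push_cast at h1 ⊢; linear_combination -h1 + (q : ZMod 3) * g3
    rw [ZMod.intCast_zmod_eq_zero_iff_dvd] at i1
    have d1 : (⟨-1, 1⟩ : Ei) = w - 1 := by decide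
    have d2 : (⟨-1, -1⟩ : Ei) = -1 - w := by decide
    obtain ⟨m, hm⟩ := three_dvd (z := (⟨-1, 1⟩ : Ei) * (⟨x, y⟩ : Ei) +
        (⟨-1, -1⟩ : Ei) * (⟨p, q⟩ : Ei))
      (by simp only [mul_re, QuadraticAlgebra.re_add]; omega)
      (by simp only [mul_im, QuadraticAlgebra.im_add]; omega)
    simp only [d1, d2] at hm
    generalize (⟨x, y⟩ : Ei) = β at hm ⊢
    generalize (⟨p, q⟩ : Ei) = δ at hm ⊢
    refine ⟨-1, -1, -m + (1 + w) * β * δ - w * β ^ 2, ?_⟩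
    rw [v2]
    linear_combination (-3) * hm +
      (-((w ^ 2 - w) * (1 + 3 * β) ^ 2 + (1 + 3 * β) * (1 + 3 * δ))) * hw

end Cub3M

/-- **L0-CUB3** -/
theorem cub3M : S_CUB3M := by
  intro _ I hI b B D hB hD hn h1
  obtain ⟨β, hb⟩ := hB
  obtain ⟨δ, hd⟩ := hD
  have eB : B = 1 + 3 * β := by linear_combination hb
  have eD : D = 1 + 3 * δ := by linear_combination hd
  have h0 : nq D = 0 := by
    unfold nq
    rw [ZMod.intCast_zmod_eq_zero_iff_dvd]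
    push_cast
    omega
  rw [eB, eD] at h1
  rw [eD] at h0
  rw [eB, eD]
  obtain ⟨t, r, z, hz⟩ := Cub3M.main b β δ h0 h1
  have hfix : ∀ z : Ei, ∀ τ : Au 3, τ I = I → τ (ev I hI z) = ev I hI z :=
    fun z τ hτ => ev_fix hI hτ z
  obtain ⟨s, hs, hs0, hsf⟩ := root hI (c := ev I hI (1 + 9 * z)) (hfix _) (by
    rw [map_add, map_one, add_sub_cancel_left]
    exact norm_nine hI z)
  refine ⟨s, ev I hI t, ev I hI r, ⟨fun τ hτ => ⟨hsf τ hτ, hfix _ τ hτ, hfix _ τ hτ⟩,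
    Or.inl hs0, ?_⟩⟩
  rw [hs, ← hz]
  simp only [map_add, map_mul, map_pow]

end Pool.Agent.D0H42.L0
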