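import Pool.Agent.D0H42.L0.Cub3M
import Pool.Agent.D0H42.L0.RamcM
import Pool.Agent.D0H10.L9.SelcN
import Pool.Agent.Y319.CT.FF
import Pool.Agent.Y379.CT.Cub
import Pool.Agent.Y674.CT.PT

/-!
# Project L0, module P6: a nontrivial kernel gives a nontrivial Selmer class
-/

set_option autoImplicit false
set_option linter.unusedSectionVars false
set_option linter.unusedVariables false

open scoped Classical

namespace Pool.Agent.D0H42.L0

open Pool.Agent.Y692.QS (Ei w nr)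
open Pool.Agent.Y715.T.Gi Pool.Agent.Y715.T.Nr Pool.Agent.Y715.T.Df
open Pool.Agent.Y715.T.Rec (cs)
open Pool.Agent.Y715.T.RecG
open Pool.Agent.Y715.T.Sel (kc_mul kc_one kc_congr kc_pow kc_uniq kc_exp ex_root root_ne
  iota_sq iota_ev odd_of not_dvd_of_unr i₀_mod exists_emb3 kc_unit norm_three_one)
open Pool.Agent.Y48.CT.SEL (p0 pr0 esq prod_form cf_prod not_assoc_lam)
open Pool.Agent.Y155.CT (a_mul a_cont)
open Pool.Agent.Y703.CT
open Pool.Agent.Y363.CT.SELC (exists_tw not_lt_prod)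
open Pool.Agent.Y180.CT (fin_of)
open Pool.Agent.N883.FF (nq)
open Pool.Agent.N883.FF.Sel (w_unit w_ne cf_unit unit_norm)
open Pool.Agent.D0H43.L3 (yq)
open Pool.Agent.D0H69.L0
open Pool.Agent.D0H43.L3.Sel (gen gen_ne kc_gen gen_mul_pow cf_gen)
open Pool.Agent.D0H43.L3.Chi (yq_mul yq_unit)
open Pool.Agent.N883.FF.Chi (nq_mul nq_unit)
open Pool.Agent.D0H43.L3.Supp (cop_prim)
open Pool.Agent.D0H10.L9.SelcN (add_prod)
open RamcM (pD_ne)

variable {J : Type} [Fintype J] {π : J → Ei} {e : J → ZMod 3}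
variable {i₀ : QB} {hi : i₀ ^ 2 + i₀ + 1 = 0}

lemma pD_norm (hD : Dt π e) {p : ℕ} [Fact p.Prime]
    (ι : QB →ₐ[ℚ] PadicAlgCl p)
    (h : ∀ j, ¬ ‖ι (ev i₀ hi (π j))‖ < 1) : ¬ ‖ι (ev i₀ hi (pD π e))‖ < 1 := by
  have h1 : ∀ j, ‖ι (ev i₀ hi (π j))‖ = 1 := by
    intro j
    refine le_antisymm ?_ (not_lt.1 (h j))
    rw [iota_ev]
    exact ev_le (iota_sq hi ι) _
  have h2 : ‖ι (ev i₀ hi (pD π e))‖ = 1 := by
    unfold pD
    rw [map_prod, map_prod, norm_prod]
    refine Finset.prod_eq_one fun j _ => ?_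
    rw [map_pow, map_pow, norm_pow, h1, one_pow]
  rw [h2]
  exact lt_irrefl _

/-- the characters attached to kernel vectors are locally solvable -/
theorem klocM (hD : Dt π e) (hN : Ntl π e) {u : QB}
    {a : GK i₀ → ZMod 3} (hTw : Tw hi (pD π e) u a) {v : J → ZMod 3} {b : ZMod 3}
    (hv : ∀ j, ∑ k, e k * cs (π j) (π k) * (v k - v j) + b * nq (π j) = 0)
    (hb2 : ∑ k, e k * v k * nq (π k) + b * ∑ k, e k * yq (π k) = 0)
    {h : GK i₀ → ZMod 3} (hKc : Kc hi (w ^ b.val * ∏ j, π j ^ (e j * v j).val) h) (p : ℕ)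
    [Fact p.Prime] (ι : QB →ₐ[ℚ] PadicAlgCl p) : ∃ R, St1 hi ι a h R := by
  have hPT := Pool.Agent.Y674.CT.t_PT
  set B : Ei := w ^ b.val * ∏ j, π j ^ (e j * v j).val with hB
  have hB0 : B ≠ 0 := mul_ne_zero (pow_ne_zero _ w_ne) (pr0 hD _)
  have hD0 : pD π e ≠ 0 := pD_ne hD
  have hcop : ∀ j, IsCoprime (π j) 3 := fun j => cop_prim (hD.pq j).three
  have nprod := add_prod nq (nq_unit isUnit_one) (fun x y hx hy => nq_mul hx hy) hcop
  have yprod := add_prod yq (yq_unit isUnit_one) (fun x y hx hy => yq_mul hx hy) hcop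
  have hpf : (3 : Ei) ∣ pD π e - 1 := by
    obtain ⟨r, hr⟩ := prod_form hD (fun j => (e j).val)
    exact ⟨r, hr⟩
  have hn9 : (9 : ℤ) ∣ nr (pD π e) - 1 := by
    have hpr : ∀ j, nr (π j) % 3 = 1 := fun j => Pool.Agent.N883.FF.Selc.nr_prim (hD.pq j).three
    obtain ⟨f1, f2⟩ := Pool.Agent.N883.FF.Selc.nq_prod (π := π) hpr (fun j => (e j).val)
      Finset.univ
    refine Pool.Agent.N883.FF.Selc.nine_of f1 ?_
    show nq (∏ j, π j ^ (e j).val) = 0
    rw [f2]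
    unfold Ntl at hN
    rw [← hN]
    refine Finset.sum_congr rfl fun j _ => ?_
    rw [ZMod.natCast_zmod_val]
  have c1 : nq (∏ j, π j ^ (e j * v j).val) + b * yq (pD π e) = 0 := by
    have e1 : yq (pD π e) = ∑ k, e k * yq (π k) := by
      unfold pD
      rw [yprod]
      refine Finset.sum_congr rfl fun j _ => ?_
      rw [ZMod.natCast_zmod_val]
    have e2 : nq (∏ j, π j ^ (e j * v j).val) = ∑ k, e k * v k * nq (π k) := by
      rw [nprod]
      refine Finset.sum_congr rfl fun j _ => ?_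
      rw [ZMod.natCast_zmod_val]
    rw [e1, e2, hb2]
  by_cases hp3 : p = 3
  · subst hp3
    exact hPT i₀ hi _ _ hB0 hD0 u a hTw _ hKc 3 ι
      (cub3M inferInstance (ι i₀) (iota_sq' hi ι) b _ _ (prod_form hD _) hpf hn9 c1)
  · by_cases hj : ∃ j, ‖ι (ev i₀ hi (π j))‖ < 1
    · obtain ⟨j, hj⟩ := hj
      exact ramcM J π e hD i₀ hi u a hTw v b _ hKc j (hv j) p ι hj
    · have hj' : ∀ j, ¬ ‖ev (ι i₀) (iota_sq' hi ι) (π j)‖ < 1 := by
        intro j h1
        apply hj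
        refine ⟨j, ?_⟩
        rw [iota_ev]
        exact h1
      have hpB : ¬ ‖ev (ι i₀) (iota_sq' hi ι) (pD π e)‖ < 1 := by
        intro h1
        refine pD_norm hD ι (fun j h2 => hj ⟨j, h2⟩) (hi := hi) ?_
        rw [iota_ev]
        exact h1
      have hB1 : ¬ ‖ev (ι i₀) (iota_sq' hi ι) B‖ < 1 := by
        have h2 : ‖ev (ι i₀) (iota_sq' hi ι) w‖ = 1 := by
          rw [← iota_ev hi ι, unit_norm]
        rw [hB, map_mul, map_pow, norm_mul, norm_pow, h2, one_pow, one_mul]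
        exact not_lt_prod _ hj' _
      exact hPT i₀ hi _ _ hB0 hD0 u a hTw _ hKc p ι
        (Pool.Agent.Y379.CT.t_CUB Pool.Agent.Y319.CT.t_FF p hp3 (ι i₀) (iota_sq' hi ι) _ _ hB1 hpB)

/-- a character proportional to the one of `∏ π_j ^ (e j)` comes from a constant vector, and the
exponent of `ω` is zero -/
theorem constM (hD : Dt π e) {u : QB} {a : GK i₀ → ZMod 3}
    (hTw : Tw hi (pD π e) u a) {v : J → ZMod 3} {b : ZMod 3} {h : GK i₀ → ZMod 3}
    (hKc : Kc hi (w ^ b.val * ∏ j, π j ^ (e j * v j).val) h) (c : ZMod 3)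
    (hc' : ∀ σ, h σ = c * a σ) : (∀ j, v j = -c) ∧ b = 0 := by
  have hD0 : pD π e ≠ 0 := pD_ne hD
  have hb : Kc hi (gen π 0 0 (fun j => (e j).val)) (fun σ => -a σ) := by
    have e1 : gen π 0 0 (fun j => (e j).val) = pD π e := by
      unfold gen pD
      rw [pow_zero, pow_zero, one_mul, one_mul]
    rw [e1]
    exact kc_of hi (root_ne (hi := hi) (z := pD π e) hD0 hTw.cube) hTw.cube hTw.act
  have hKc0 : Kc hi (gen π b.val 0 (fun j => (e j * v j).val)) h := by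
    have e1 : gen π b.val 0 (fun j => (e j * v j).val) =
        w ^ b.val * ∏ j, π j ^ (e j * v j).val := by
      unfold gen
      rw [pow_zero, one_mul]
    rw [e1]
    exact hKc
  have hy := kc_mul (gen_ne hD _ _ _) (pow_ne_zero c.val (gen_ne hD _ _ _)) hKc0
    (kc_pow (gen_ne hD _ _ _) hb c.val)
  rw [gen_mul_pow] at hy
  have hy2 : Kc hi (gen π b.val (0 : ZMod 3).val (fun k => (e k * (v k + c)).val))
      (fun σ => h σ + (c.val : ZMod 3) * -a σ) := by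
    refine kc_gen (p0 hD) ?_ ?_ (fun k => ?_) hy
    · rw [zero_mul, add_zero]
    · rw [zero_mul, add_zero, ZMod.val_zero]
    · push_cast
      rw [ZMod.natCast_zmod_val, ZMod.natCast_zmod_val, ZMod.natCast_zmod_val,
        ZMod.natCast_zmod_val]
      ring
  have hy3 : ∀ σ : GK i₀, h σ + (c.val : ZMod 3) * -a σ = 0 := by
    intro σ
    rw [hc' σ, ZMod.natCast_zmod_val]
    ring
  have hyj : ∀ j, e j * (v j + c) = 0 := by
    intro j
    obtain ⟨p, hp, ι, hl⟩ := exists_emb hi (hD.pq j).prime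
    have hp3 := odd_of hi ι (hD.pq j).prime hl (not_assoc_lam (hD.pq j))
    have h1 := not_dvd_of_unr (cf_unit (w_unit.pow b.val)
      (cf_gen hD 0 (fun k => e k * (v k + c)))) hy2 hp3 ι
      (hD.pq j).prime hl (fun τ σ _ _ => hy3 σ)
    by_contra hne'
    apply h1
    refine Dvd.dvd.mul_left (Dvd.dvd.mul_left (dvd_trans (dvd_pow_self (π j) ?_)
      (Finset.dvd_prod_of_mem
      (fun k => π k ^ (e k * (v k + c)).val) (Finset.mem_univ j))) _) _
    rwa [Ne, ZMod.val_eq_zero]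
  have hvj : ∀ j, v j = -c := by
    intro j
    have h2 := esq hD j
    have h3 : v j + c = 0 := by
      calc v j + c = (e j * e j) * (v j + c) := by rw [h2, one_mul]
        _ = e j * (e j * (v j + c)) := by ring
        _ = 0 := by rw [hyj, mul_zero]
    exact eq_neg_of_add_eq_zero_left h3
  refine ⟨hvj, ?_⟩
  have hprod : gen π b.val (0 : ZMod 3).val (fun k => (e k * (v k + c)).val) =
      w ^ b.val * lam ^ 0 := by
    unfold gen
    have e1 : ∏ k, π k ^ (e k * (v k + c)).val = 1 := by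
      refine Finset.prod_eq_one fun k _ => ?_
      rw [hyj k, ZMod.val_zero, pow_zero]
    rw [e1, mul_one, ZMod.val_zero]
  rw [hprod] at hy2
  obtain ⟨s, hs⟩ := ex_root (ev i₀ hi (w ^ b.val * lam ^ 0))
  have hfix : ∀ σ : GK i₀, σ s = s := by
    intro σ
    have h1 := hy2 s hs σ
    simp only [hy3 σ, ZMod.val_zero, pow_zero, one_mul] at h1
    exact h1
  obtain ⟨ι₃⟩ := exists_emb3
  have hmem : ι₃ s ∈ Pool.Agent.Y180.CT.Kl (ι₃ i₀) := by
    intro τ hτ
    obtain ⟨σ, hcm⟩ := exists_cmp ι₃ τ hτ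
    rw [hcm, hfix]
  obtain ⟨hf1, hf2⟩ := fin_of (q := 0) hi ι₃ (w_unit.pow b.val) hmem (zero_mem _)
    (by rw [norm_zero]; exact zero_le_one)
    (by rw [mul_zero, add_zero, mul_one, mul_zero, add_zero, mul_one, ← map_pow, hs,
      Pool.Agent.Y180.CT.iota_ev' hi ι₃])
  have key : ∀ b : ZMod 3, ((w : Ei) ^ b.val = 1 ∨ (w : Ei) ^ b.val = -1) → b = 0 := by decide
  exact key b hf2

/-- **L0-SELC.** -/
theorem selcM : S_SELCM := by
  intro hFF hCUB hCUB3 hPT hRAMC J _ π e hD hN hker i₀ hi u a hTw hsel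
  have hker' : ∃ (v : J → ZMod 3) (b : ZMod 3), (∀ j, ∑ k, e k * cs (π j) (π k) * (v k - v j) +
      b * nq (π j) = 0) ∧ ∑ k, e k * v k * nq (π k) + b * ∑ k, e k * yq (π k) = 0 ∧
      ¬ ((∀ i j, v i = v j) ∧ b = 0) := by
    by_contra hcon
    apply hker
    intro v b hv hb
    by_contra hne
    exact hcon ⟨v, b, hv, hb, hne⟩
  obtain ⟨v, b, hv, hb2, hne⟩ := hker'
  set B : Ei := w ^ b.val * ∏ j, π j ^ (e j * v j).val with hB
  have hB0 : B ≠ 0 := mul_ne_zero (pow_ne_zero _ w_ne) (pr0 hD _)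
  obtain ⟨β, a', hTw'⟩ := exists_tw (hi := hi) B
  have hm : ∀ σ τ : GK i₀, -a' (σ * τ) = -a' σ + -a' τ := by
    intro σ τ
    rw [a_mul hB0 hTw' σ τ]
    ring
  have hc : IsLocallyConstant (fun σ : GK i₀ => -a' σ) :=
    (a_cont hB0 hTw').comp (fun c : ZMod 3 => -c)
  have hKc : Kc hi B (fun σ => -a' σ) :=
    kc_of hi (root_ne (hi := hi) hB0 hTw'.cube) hTw'.cube hTw'.act
  have hloc : ∀ (p : ℕ) [Fact p.Prime] (ι : QB →ₐ[ℚ] PadicAlgCl p),
      ∃ R, St1 hi ι a (fun σ => -a' σ) R := fun p _ ι => klocM hD hN hTw hv hb2 hKc p ι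
  obtain ⟨c, hc'⟩ := hsel _ hc hm hloc
  obtain ⟨h1, h2⟩ := constM hD hTw hKc c hc'
  exact hne ⟨fun i j => by rw [h1 i, h1 j], h2⟩

end Pool.Agent.D0H42.L0
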